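import Pool.Agent.L0h99.MN.Stm2

set_option autoImplicit false

namespace Pool.Agent.L0h92.MD

open Finset Pool.Agent.L0h99.MN Pool.Agent.L0h99.MD

section

variable {V : Type} [Fintype V] [DecidableEq V]

/-- branch sets of a complete minor -/
def Md (G : SimpleGraph V) {n : ℕ} (B : Fin n → Finset V) : Prop := (∀ i, Cn G (B i)) ∧
  (∀ i j, i ≠ j → Disjoint (B i) (B j)) ∧ ∀ i j, i ≠ j → ∃ x ∈ B i, ∃ y ∈ B j, G.Adj x y

theorem Md.cons {G : SimpleGraph V} {n : ℕ} {B : Fin n → Finset V} (h : Md G B) (A : Finset V)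
    (hA : Cn G A) (hd : ∀ i, Disjoint A (B i)) (ha : ∀ i, ∃ x ∈ A, ∃ y ∈ B i, G.Adj x y) :
    Md G (Fin.cons A B : Fin (n + 1) → Finset V) := by
  obtain ⟨h1, h2, h3⟩ := h
  refine ⟨fun i => ?_, fun i j => ?_, fun i j => ?_⟩
  · refine Fin.cases ?_ (fun i => ?_) i
    · rw [Fin.cons_zero]
      exact hA
    · rw [Fin.cons_succ]
      exact h1 i
  · refine Fin.cases ?_ (fun i => ?_) i
    · refine Fin.cases (fun h => absurd rfl h) (fun j _ => ?_) j
      rw [Fin.cons_zero, Fin.cons_succ]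
      exact hd j
    · refine Fin.cases (fun _ => ?_) (fun j hij => ?_) j
      · rw [Fin.cons_zero, Fin.cons_succ]
        exact (hd i).symm
      · rw [Fin.cons_succ, Fin.cons_succ]
        exact h2 i j fun h => hij (congrArg Fin.succ h)
  · refine Fin.cases ?_ (fun i => ?_) i
    · refine Fin.cases (fun h => absurd rfl h) (fun j _ => ?_) j
      rw [Fin.cons_zero, Fin.cons_succ]
      exact ha j
    · refine Fin.cases (fun _ => ?_) (fun j hij => ?_) j
      · rw [Fin.cons_zero, Fin.cons_succ]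
        obtain ⟨x, hx, y, hy, hxy⟩ := ha i
        exact ⟨y, hy, x, hx, hxy.symm⟩
      · rw [Fin.cons_succ, Fin.cons_succ]
        exact h3 i j fun h => hij (congrArg Fin.succ h)

theorem Cn_singleton (G : SimpleGraph V) (v : V) : Cn G {v} := by
  refine ⟨singleton_nonempty v, fun X hX hne hXv => ?_⟩
  rcases Finset.subset_singleton_iff.1 hX with h | h
  · rw [h] at hne
    exact absurd hne not_nonempty_empty
  · exact absurd h hXv

theorem Cn_insert {G : SimpleGraph V} {D : Finset V} (hD : Cn G D) (p : V)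
    (hp : ∃ d ∈ D, G.Adj p d) : Cn G (insert p D) := by
  obtain ⟨hDne, hDc⟩ := hD
  refine ⟨insert_nonempty p D, fun X hX hne hXv => ?_⟩
  obtain ⟨d, hd, hpd⟩ := hp
  by_cases hpX : p ∈ X
  · by_cases hsub : D ⊆ X
    · exfalso
      apply hXv
      apply Subset.antisymm hX
      intro z hz
      rcases mem_insert.1 hz with rfl | hz
      · exact hpX
      · exact hsub hz
    · -- some element of D outside X
      by_cases hdX : d ∈ X
      · have h1 : X ∩ D ⊆ D := inter_subset_right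
        have h2 : (X ∩ D).Nonempty := ⟨d, mem_inter.2 ⟨hdX, hd⟩⟩
        have h3 : X ∩ D ≠ D := fun h => hsub (inter_eq_right.1 h)
        obtain ⟨a, ha, b, hb, hab⟩ := hDc _ h1 h2 h3
        refine ⟨a, (mem_inter.1 ha).1, b, mem_sdiff.2 ⟨mem_insert_of_mem (mem_sdiff.1 hb).1,
          fun hbX => (mem_sdiff.1 hb).2 (mem_inter.2 ⟨hbX, (mem_sdiff.1 hb).1⟩)⟩, hab⟩
      · exact ⟨p, hpX, d, mem_sdiff.2 ⟨mem_insert_of_mem hd, hdX⟩, hpd⟩
  · have hXD : X ⊆ D := by
      intro z hz
      rcases mem_insert.1 (hX hz) with rfl | h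
      · exact absurd hz hpX
      · exact h
    by_cases hXe : X = D
    · rw [hXe]
      refine ⟨d, hd, p, mem_sdiff.2 ⟨mem_insert_self p D, fun h => hpX (by rw [hXe]; exact h)⟩,
        hpd.symm⟩
    · obtain ⟨a, ha, b, hb, hab⟩ := hDc X hXD hne hXe
      exact ⟨a, ha, b, mem_sdiff.2 ⟨mem_insert_of_mem (mem_sdiff.1 hb).1, (mem_sdiff.1 hb).2⟩, hab⟩

end

theorem LNK : St_LNK := by
  intro V _ _ G v p q D hp hq hpq hP hD hdisj hpD hqD
  obtain ⟨B, hB, hBd, hBa⟩ := hP
  have hvp : G.Adj v p := mem_N.1 hp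
  have hvq : G.Adj v q := mem_N.1 hq
  have hvD : v ∉ D := fun h => Finset.disjoint_left.1 hdisj h (mem_insert_self _ _)
  have hND : ∀ x ∈ N G v, x ∉ D := fun x hx h =>
    Finset.disjoint_left.1 hdisj h (mem_insert_of_mem hx)
  have hvN : v ∉ N G v := fun h => G.loopless.irrefl v (mem_N.1 h)
  have h0 : Md G B := ⟨fun i => (hB i).2.2.2.1, hBd, hBa⟩
  -- the set of `q`
  have h1 : Md G (Fin.cons {q} B : Fin 4 → Finset V) := by
    refine h0.cons {q} (Cn_singleton G q) (fun i => ?_) fun i => ?_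
    · rw [disjoint_singleton_left]
      exact (hB i).2.2.1
    · obtain ⟨x, hx, hqx⟩ := (hB i).2.2.2.2.2
      exact ⟨q, mem_singleton_self q, x, hx, hqx⟩
  -- the set of `p`
  have h2 : Md G (Fin.cons (insert p D) (Fin.cons {q} B : Fin 4 → Finset V) :
      Fin 5 → Finset V) := by
    refine h1.cons _ (Cn_insert hD p hpD) (fun i => ?_) fun i => ?_
    · refine Fin.cases ?_ (fun i => ?_) i
      · rw [Fin.cons_zero, disjoint_singleton_right, mem_insert, not_or]
        exact ⟨fun h => hpq h.symm, hND q hq⟩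
      · rw [Fin.cons_succ, disjoint_insert_left]
        refine ⟨(hB i).2.1, Finset.disjoint_left.2 fun x hx hxB => ?_⟩
        exact hND x ((hB i).1 hxB) hx
    · refine Fin.cases ?_ (fun i => ?_) i
      · rw [Fin.cons_zero]
        obtain ⟨d, hd, hqd⟩ := hqD
        exact ⟨d, mem_insert_of_mem hd, q, mem_singleton_self q, hqd.symm⟩
      · rw [Fin.cons_succ]
        obtain ⟨x, hx, hpx⟩ := (hB i).2.2.2.2.1
        exact ⟨p, mem_insert_self p D, x, hx, hpx⟩
  -- the set of `v`
  have h3 : Md G (Fin.cons {v} (Fin.cons (insert p D) (Fin.cons {q} B : Fin 4 → Finset V) :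
      Fin 5 → Finset V) : Fin 6 → Finset V) := by
    refine h2.cons _ (Cn_singleton G v) (fun i => ?_) fun i => ?_
    · rw [disjoint_singleton_left]
      refine Fin.cases ?_ (fun i => ?_) i
      · rw [Fin.cons_zero, mem_insert, not_or]
        exact ⟨hvp.ne, hvD⟩
      · rw [Fin.cons_succ]
        refine Fin.cases ?_ (fun i => ?_) i
        · rw [Fin.cons_zero, mem_singleton]
          exact hvq.ne
        · rw [Fin.cons_succ]
          exact fun h => hvN ((hB i).1 h)
    · refine ⟨v, mem_singleton_self v, ?_⟩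
      refine Fin.cases ?_ (fun i => ?_) i
      · rw [Fin.cons_zero]
        exact ⟨p, mem_insert_self p D, hvp⟩
      · rw [Fin.cons_succ]
        refine Fin.cases ?_ (fun i => ?_) i
        · rw [Fin.cons_zero]
          exact ⟨q, mem_singleton_self q, hvq⟩
        · rw [Fin.cons_succ]
          obtain ⟨x, hx, _⟩ := (hB i).2.2.2.2.1
          exact ⟨x, hx, mem_N.1 ((hB i).1 hx)⟩
  exact ⟨_, h3⟩

end Pool.Agent.L0h92.MD
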